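import Pool.Agent.Helper40.PR.Defs3
import Pool.Agent.Helper8.PR.TK1
import Pool.Agent.Helper55.PR.TK4B

/-!
# Piece E10C: the first slot test for `η T*` forces normality (dimension at most two)
-/

namespace PR

open ContinuousLinearMap InnerProductSpace Complex Polynomial

open scoped ComplexConjugate

namespace E10C

/-! ### Quadratic polynomials on a line -/

lemma line_eq {a0 a1 b0 b1 c0 c1 d0 d1 a0' a1' b0' b1' c0' c1' d0' d1' : ℂ}
    (h : ∀ t : ℂ, ‖(a0' + a1' * t) * (d0' + d1' * t) - (b0' + b1' * t) * (c0' + c1' * t)‖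
      ≤ ‖(a0 + a1 * t) * (d0 + d1 * t) - (b0 + b1 * t) * (c0 + c1 * t)‖)
    (h0 : a0' * d0' - b0' * c0' = a0 * d0 - b0 * c0) (hne : a0 * d0 - b0 * c0 ≠ 0) :
    (a0' + a1') * (d0' + d1') - (b0' + b1') * (c0' + c1')
      = (a0 + a1) * (d0 + d1) - (b0 + b1) * (c0 + c1) := by
  obtain ⟨c, -, hc⟩ := poly_norm_le
    ((C a0' + C a1' * X) * (C d0' + C d1' * X) - (C b0' + C b1' * X) * (C c0' + C c1' * X))
    ((C a0 + C a1 * X) * (C d0 + C d1 * X) - (C b0 + C b1 * X) * (C c0 + C c1 * X)) (by
      intro t
      simpa using h t)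
  have e0 := congrArg (Polynomial.eval 0) hc
  have e1 := congrArg (Polynomial.eval 1) hc
  simp only [eval_sub, eval_mul, eval_add, eval_C, eval_X, mul_zero, add_zero, mul_one] at e0 e1
  rw [h0] at e0
  have hc1 : c = 1 := by
    have : (c - 1) * (a0 * d0 - b0 * c0) = 0 := by linear_combination -e0
    rcases mul_eq_zero.mp this with h1 | h1
    · linear_combination h1
    · exact absurd h1 hne
  rw [hc1, one_mul] at e1
  exact e1

/-! ### The determinant and the trace of `A S - S A*` -/

/-- The trace of `A S - S A*`. -/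
noncomputable def trF (a11 a12 a21 a22 s11 s12 s21 s22 : ℂ) : ℂ :=
  (s11 * a11 + s21 * a12 - conj a11 * s11 - conj a12 * s12)
    + (s12 * a21 + s22 * a22 - conj a21 * s21 - conj a22 * s22)

/-- The determinant of `A S - S A*`. -/
noncomputable def dF (a11 a12 a21 a22 s11 s12 s21 s22 : ℂ) : ℂ :=
  (s11 * a11 + s21 * a12 - conj a11 * s11 - conj a12 * s12) *
    (s12 * a21 + s22 * a22 - conj a21 * s21 - conj a22 * s22) -
  (s12 * a11 + s22 * a12 - conj a21 * s11 - conj a22 * s12) *
    (s11 * a21 + s21 * a22 - conj a11 * s21 - conj a12 * s22)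

/-- The algebraic core. -/
lemma core {p q s η : ℂ} (hη : η * conj η = 1)
    (h : ∀ s11 s12 s21 s22 : ℂ,
      Rt (trF (η * conj p) (η * q) (η * conj q) (η * conj s) s11 s12 s21 s22)
        (dF (η * conj p) (η * q) (η * conj q) (η * conj s) s11 s12 s21 s22)
      = Rt (trF p q (conj q) s s11 s12 s21 s22) (dF p q (conj q) s s11 s12 s21 s22)) :
    conj q * ((p - conj p) - (s - conj s)) = 0 := by
  by_cases hq : q = 0
  · rw [hq, map_zero, zero_mul]
  have hq' : conj q ≠ 0 := by
    rwa [Ne, map_eq_zero]
  -- the inequality on `G`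
  have hG : ∀ s11 s12 s21 s22 : ℂ, trF p q (conj q) s s11 s12 s21 s22 = 0 →
      ‖dF (η * conj p) (η * q) (η * conj q) (η * conj s) s11 s12 s21 s22‖
        ≤ ‖dF p q (conj q) s s11 s12 s21 s22‖ := by
    intro s11 s12 s21 s22 h0
    have h1 := norm_det_le (trF (η * conj p) (η * q) (η * conj q) (η * conj s) s11 s12 s21 s22)
      (dF (η * conj p) (η * q) (η * conj q) (η * conj s) s11 s12 s21 s22)
    rw [h, h0, Rt_zero_left, Real.sq_sqrt (norm_nonneg _)] at h1
    exact h1
  -- equality on the lines through the nilpotent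
  have hE : ∀ s11 s21 s22 : ℂ, (p - conj p) * s11 + (s - conj s) * s22 = 0 →
      dF (η * conj p) (η * q) (η * conj q) (η * conj s) s11 1 s21 s22
        = dF p q (conj q) s s11 1 s21 s22 := by
    intro s11 s21 s22 h0
    have h1 : ∀ t : ℂ, trF p q (conj q) s (s11 * t) 1 (s21 * t) (s22 * t) = 0 := by
      intro t
      unfold trF
      simp only [Complex.conj_conj]
      linear_combination t * h0
    have h2 := line_eq (a0 := - conj q) (a1 := s11 * p + s21 * q - conj p * s11)
      (d0 := conj q) (d1 := s22 * s - q * s21 - conj s * s22)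
      (b0 := p - conj s) (b1 := s22 * q - q * s11)
      (c0 := 0) (c1 := s11 * conj q + s21 * s - conj p * s21 - conj q * s22)
      (a0' := - conj (η * q)) (a1' := s11 * (η * conj p) + s21 * (η * q) - conj (η * conj p) * s11)
      (d0' := η * conj q)
      (d1' := s22 * (η * conj s) - conj (η * conj q) * s21 - conj (η * conj s) * s22)
      (b0' := η * conj p - conj (η * conj s)) (b1' := s22 * (η * q) - conj (η * conj q) * s11)
      (c0' := 0)
      (c1' := s11 * (η * conj q) + s21 * (η * conj s) - conj (η * conj p) * s21 - conj (η * q) * s22)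
      (by
        intro t
        have h3 := hG (s11 * t) 1 (s21 * t) (s22 * t) (h1 t)
        have e1 : dF (η * conj p) (η * q) (η * conj q) (η * conj s) (s11 * t) 1 (s21 * t) (s22 * t)
          = (- conj (η * q) + (s11 * (η * conj p) + s21 * (η * q) - conj (η * conj p) * s11) * t) *
            (η * conj q + (s22 * (η * conj s) - conj (η * conj q) * s21 - conj (η * conj s) * s22) * t)
            - (η * conj p - conj (η * conj s) + (s22 * (η * q) - conj (η * conj q) * s11) * t) *
            (0 + (s11 * (η * conj q) + s21 * (η * conj s) - conj (η * conj p) * s21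
              - conj (η * q) * s22) * t) := by
          unfold dF
          ring
        have e2 : dF p q (conj q) s (s11 * t) 1 (s21 * t) (s22 * t)
          = (- conj q + (s11 * p + s21 * q - conj p * s11) * t) *
            (conj q + (s22 * s - q * s21 - conj s * s22) * t)
            - (p - conj s + (s22 * q - q * s11) * t) *
            (0 + (s11 * conj q + s21 * s - conj p * s21 - conj q * s22) * t) := by
          unfold dF
          simp only [Complex.conj_conj]
          ring
        rw [e1, e2] at h3
        exact h3)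
      (by
        simp only [map_mul]
        linear_combination (-(conj q) ^ 2) * hη)
      (by
        intro h3
        have : conj q * conj q = 0 := by linear_combination -h3
        exact hq' (mul_self_eq_zero.mp this))
    unfold dF
    simp only [Complex.conj_conj, map_mul] at h2 ⊢
    linear_combination h2
  have e1 := hE 0 1 0 (by ring)
  have e2 := hE (s - conj s) 0 (-(p - conj p)) (by ring)
  unfold dF at e1 e2
  simp only [Complex.conj_conj, map_mul] at e1 e2
  have key : conj q * ((p - conj p) - (s - conj s)) ^ 2 = 0 := by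
    generalize conj p = P at *
    generalize conj q = Q at *
    generalize conj s = S at *
    generalize conj η = H at *
    linear_combination e2 + (-(s - S) * (p - P)) * e1 -
      (((s - S) * P * (-((P - p) * s)) + (-((s - S) * p) - Q) * (Q + (P - p) * S)
        - (P + (P - p) * q) * (-(Q * (P - p))) - (-(q * (s - S)) - s) * ((s - S) * Q))
        + (-(s - S) * (p - P)) * (-q ^ 2 - Q ^ 2 + p * P + s * S)) * hη
  rcases mul_eq_zero.mp key with h1 | h1
  · exact absurd h1 hq'
  · rw [pow_eq_zero_iff (by norm_num)] at h1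
    rw [h1, mul_zero]

/-! ### Operators in dimension two -/

section two

variable {H : Type*} [NormedAddCommGroup H] [InnerProductSpace ℂ H] [CompleteSpace H]

lemma sr_two {e f : H} (hspan : ∀ x, x = inner ℂ e x • e + inner ℂ f x • f) (M : H →L[ℂ] H) :
    sr M = Rt (inner ℂ e (M e) + inner ℂ f (M f))
      (inner ℂ e (M e) * inner ℂ f (M f) - inner ℂ e (M f) * inner ℂ f (M e)) := by
  have hM : M = rk (M e) (innerSL ℂ e) + rk (M f) (innerSL ℂ f) := by
    ext x
    conv_lhs => rw [hspan x, map_add, map_smul, map_smul]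
    simp
  conv_lhs => rw [hM]
  rw [sr_rk_add_rk]
  simp only [innerSL_apply_apply]

lemma sr_skb_two {e f : H} (he : inner ℂ e e = 1) (hf : inner ℂ f f = 1)
    (hef : inner ℂ e f = 0) (hfe : inner ℂ f e = 0)
    (hspan : ∀ x, x = inner ℂ e x • e + inner ℂ f x • f) (A : H →L[ℂ] H)
    (s11 s12 s21 s22 : ℂ) :
    sr (skb A (s11 • po e e + s12 • po e f + s21 • po f e + s22 • po f f)) =
      Rt (trF (inner ℂ e (A e)) (inner ℂ e (A f)) (inner ℂ f (A e)) (inner ℂ f (A f))
          s11 s12 s21 s22)
        (dF (inner ℂ e (A e)) (inner ℂ e (A f)) (inner ℂ f (A e)) (inner ℂ f (A f))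
          s11 s12 s21 s22) := by
  rw [sr_two hspan]
  have hee : inner ℂ e (adjoint A e) = conj (inner ℂ e (A e)) := by
    rw [adjoint_inner_right, inner_conj_symm]
  have hfe' : inner ℂ f (adjoint A e) = conj (inner ℂ e (A f)) := by
    rw [adjoint_inner_right, inner_conj_symm]
  have hef' : inner ℂ e (adjoint A f) = conj (inner ℂ f (A e)) := by
    rw [adjoint_inner_right, inner_conj_symm]
  have hff : inner ℂ f (adjoint A f) = conj (inner ℂ f (A f)) := by
    rw [adjoint_inner_right, inner_conj_symm]
  have hSe : (s11 • po e e + s12 • po e f + s21 • po f e + s22 • po f f) e = s11 • e + s21 • f := by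
    simp only [add_apply, smul_apply, po_apply, he, hfe, one_smul, zero_smul, smul_zero, add_zero]
  have hSf : (s11 • po e e + s12 • po e f + s21 • po f e + s22 • po f f) f = s12 • e + s22 • f := by
    simp only [add_apply, smul_apply, po_apply, hf, hef, one_smul, zero_smul, smul_zero, add_zero,
      zero_add]
  have hS1 : ∀ x, inner ℂ e ((s11 • po e e + s12 • po e f + s21 • po f e + s22 • po f f) x)
      = s11 * inner ℂ e x + s12 * inner ℂ f x := by
    intro x
    simp only [add_apply, smul_apply, po_apply, inner_add_right, inner_smul_right, he, hef]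
    ring
  have hS2 : ∀ x, inner ℂ f ((s11 • po e e + s12 • po e f + s21 • po f e + s22 • po f f) x)
      = s21 * inner ℂ e x + s22 * inner ℂ f x := by
    intro x
    simp only [add_apply, smul_apply, po_apply, inner_add_right, inner_smul_right, hf, hfe]
    ring
  have h11 : ∀ x y, inner ℂ x (skb A (s11 • po e e + s12 • po e f + s21 • po f e + s22 • po f f) y)
      = inner ℂ x (A ((s11 • po e e + s12 • po e f + s21 • po f e + s22 • po f f) y))
        - inner ℂ x ((s11 • po e e + s12 • po e f + s21 • po f e + s22 • po f f)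
            (adjoint A y)) := by
    intro x y
    rw [skb, sub_apply, inner_sub_right]
    rfl
  rw [h11, h11, h11, h11, hSe, hSf, hS1, hS2, hS1, hS2, hee, hfe', hef', hff]
  simp only [map_add, map_smul, inner_add_right, inner_smul_right]
  congr 1
  · unfold trF
    ring
  · unfold dF
    ring

/-- the case of an orthonormal basis diagonalising `T - T†` -/
lemma normal_two {e f : H} (he : inner ℂ e e = 1) (hf : inner ℂ f f = 1)
    (hef : inner ℂ e f = 0) (hfe : inner ℂ f e = 0)
    (hspan : ∀ x, x = inner ℂ e x • e + inner ℂ f x • f) {T : H →L[ℂ] H}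
    (hT : inner ℂ f (T e) = conj (inner ℂ e (T f))) {η : ℂ} (hη : ‖η‖ = 1)
    (h : ∀ S, sr (skb (η • adjoint T) S) = sr (skb T S)) : T * adjoint T = adjoint T * T := by
  have hη' : η * conj η = 1 := by
    rw [Complex.mul_conj, Complex.normSq_eq_norm_sq, hη]
    norm_num
  have hee : inner ℂ e (adjoint T e) = conj (inner ℂ e (T e)) := by
    rw [adjoint_inner_right, inner_conj_symm]
  have hfe' : inner ℂ f (adjoint T e) = conj (inner ℂ e (T f)) := by
    rw [adjoint_inner_right, inner_conj_symm]
  have hef' : inner ℂ e (adjoint T f) = inner ℂ e (T f) := by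
    rw [adjoint_inner_right, ← inner_conj_symm, hT, Complex.conj_conj]
  have hff : inner ℂ f (adjoint T f) = conj (inner ℂ f (T f)) := by
    rw [adjoint_inner_right, inner_conj_symm]
  have hc := core (p := inner ℂ e (T e)) (q := inner ℂ e (T f)) (s := inner ℂ f (T f)) hη' (by
    intro s11 s12 s21 s22
    have h1 := h (s11 • po e e + s12 • po e f + s21 • po f e + s22 • po f f)
    rw [sr_skb_two he hf hef hfe hspan, sr_skb_two he hf hef hfe hspan] at h1
    simp only [smul_apply, inner_smul_right, hee, hfe', hef', hff, hT] at h1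
    exact h1)
  have hc' := congrArg (starRingEnd ℂ) hc
  simp only [map_mul, map_sub, Complex.conj_conj, map_zero] at hc'
  have eTe := hspan (T e)
  have eTf := hspan (T f)
  have eAe := hspan (adjoint T e)
  have eAf := hspan (adjoint T f)
  rw [hT] at eTe
  rw [hee, hfe'] at eAe
  rw [hef', hff] at eAf
  generalize inner ℂ e (T e) = p at *
  generalize inner ℂ e (T f) = q at *
  generalize inner ℂ f (T f) = s at *
  have k1 : T (adjoint T e) = adjoint T (T e) := by
    have l1 : T (adjoint T e) = conj p • (p • e + conj q • f) + conj q • (q • e + s • f) := by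
      rw [eAe, map_add, map_smul, map_smul, eTe, eTf]
    have l2 : adjoint T (T e) = p • (conj p • e + conj q • f) + conj q • (q • e + conj s • f) := by
      rw [eTe, map_add, map_smul, map_smul, eAe, eAf]
    rw [l1, l2, ← sub_eq_zero]
    have : conj p • (p • e + conj q • f) + conj q • (q • e + s • f)
      - (p • (conj p • e + conj q • f) + conj q • (q • e + conj s • f))
      = (-(conj q * ((p - conj p) - (s - conj s)))) • f := by module
    rw [this, hc, neg_zero, zero_smul]
  have k2 : T (adjoint T f) = adjoint T (T f) := by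
    have l1 : T (adjoint T f) = q • (p • e + conj q • f) + conj s • (q • e + s • f) := by
      rw [eAf, map_add, map_smul, map_smul, eTe, eTf]
    have l2 : adjoint T (T f) = q • (conj p • e + conj q • f) + s • (q • e + conj s • f) := by
      rw [eTf, map_add, map_smul, map_smul, eAe, eAf]
    rw [l1, l2, ← sub_eq_zero]
    have : q • (p • e + conj q • f) + conj s • (q • e + s • f)
      - (q • (conj p • e + conj q • f) + s • (q • e + conj s • f))
      = (-(q * (conj p - p - (conj s - s)))) • e := by module
    rw [this, hc', neg_zero, zero_smul]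
  ext x
  change T (adjoint T x) = adjoint T (T x)
  rw [hspan x]
  simp only [map_add, map_smul, k1, k2]

omit [CompleteSpace H] in
lemma finite_of_not_dim3 (hH : ¬ Dim3 H) :
    ∃ _ : FiniteDimensional ℂ H, Module.finrank ℂ H < 3 := by
  have h1 : Module.rank ℂ H < (3 : ℕ) := by
    rw [← not_le, le_rank_iff_exists_linearIndependent_finset]
    rintro ⟨s, hs, hli⟩
    apply hH
    have e : Fin 3 ≃ s := (Fintype.equivFinOfCardEq (by rw [Fintype.card_coe, hs])).symm
    exact ⟨_, hli.comp e e.injective⟩
  have h2 : Module.Finite ℂ H :=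
    Module.rank_lt_aleph0_iff.1 (h1.trans (Cardinal.natCast_lt_aleph0))
  exact ⟨h2, Module.finrank_lt_of_rank_lt h1⟩

end two

end E10C

open E10C in
/-- E10C: in dimension at most two, the first slot test for `η T*` forces `T` to be normal. -/
theorem normal_of_first_two {H : Type*} [NormedAddCommGroup H] [InnerProductSpace ℂ H]
    [CompleteSpace H] (hH : ¬ Dim3 H) {T : H →L[ℂ] H} {η : ℂ} (hη : ‖η‖ = 1)
    (h : ∀ S, sr (skb (η • adjoint T) S) = sr (skb T S)) : T * adjoint T = adjoint T * T := by
  obtain ⟨hfin, hrk⟩ := finite_of_not_dim3 hH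
  have hcases : Module.finrank ℂ H = 0 ∨ Module.finrank ℂ H = 1 ∨ Module.finrank ℂ H = 2 := by
    omega
  rcases hcases with h0 | h1 | h2
  · have := Module.finrank_zero_iff.1 h0
    ext x
    exact Subsingleton.elim _ _
  · obtain ⟨v, -, hv⟩ := finrank_eq_one_iff'.1 h1
    obtain ⟨a, ha⟩ := hv (T v)
    obtain ⟨b, hb⟩ := hv (adjoint T v)
    ext x
    obtain ⟨c, rfl⟩ := hv x
    change T (adjoint T (c • v)) = adjoint T (T (c • v))
    have e1 : T (adjoint T (c • v)) = (c * b * a) • v := by
      rw [map_smul, map_smul, ← hb, map_smul, ← ha]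
      module
    have e2 : adjoint T (T (c • v)) = (c * b * a) • v := by
      rw [map_smul, map_smul, ← ha, map_smul, ← hb]
      module
    rw [e1, e2]
  · -- the self-adjoint operator `i (T - T*)`
    have hsa : IsSelfAdjoint (I • (T - adjoint T)) := by
      rw [ContinuousLinearMap.isSelfAdjoint_iff', map_smulₛₗ, map_sub, adjoint_adjoint]
      simp only [conj_I]
      module
    have hsym := ContinuousLinearMap.isSelfAdjoint_iff_isSymmetric.1 hsa
    set b := hsym.eigenvectorBasis h2 with hb
    have hon := b.orthonormal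
    have hspan : ∀ x, x = inner ℂ (b 0) x • b 0 + inner ℂ (b 1) x • b 1 := by
      intro x
      conv_lhs => rw [← b.sum_repr' x, Fin.sum_univ_two]
    have hef : inner ℂ (b 0) (b 1) = 0 := hon.2 (by decide)
    have hfe : inner ℂ (b 1) (b 0) = 0 := hon.2 (by decide)
    have hee : inner ℂ (b 0) (b 0) = 1 := by
      rw [inner_self_eq_norm_sq_to_K, hon.1 0]
      norm_num
    have hff : inner ℂ (b 1) (b 1) = 1 := by
      rw [inner_self_eq_norm_sq_to_K, hon.1 1]
      norm_num
    have heig := hsym.apply_eigenvectorBasis h2 0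
    rw [← hb] at heig
    have hT : inner ℂ (b 1) (T (b 0)) = conj (inner ℂ (b 0) (T (b 1))) := by
      have e1 : inner ℂ (b 1) ((I • (T - adjoint T)) (b 0)) = 0 := by
        have e2 : (I • (T - adjoint T)) (b 0) = ((hsym.eigenvalues h2 0 : ℝ) : ℂ) • b 0 := heig
        rw [e2, inner_smul_right, hfe, mul_zero]
      rw [smul_apply, inner_smul_right, sub_apply, inner_sub_right, adjoint_inner_right] at e1
      have e3 := (mul_eq_zero.1 e1).resolve_left I_ne_zero
      rw [sub_eq_zero] at e3
      rw [e3, inner_conj_symm]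
    exact normal_two hee hff hef hfe hspan hT hη h

end PR
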